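import Mathlib

set_option autoImplicit false

open Polynomial Finset

namespace Helper669.LM

/-- The Legendre polynomials, by Rodrigues' formula: `P_n = (1 / (2^n n!)) (d/dx)^n (x^2 - 1)^n`. -/
noncomputable def legendre (n : ℕ) : ℝ[X] :=
  C (1 / (2 ^ n * (n.factorial : ℝ))) * derivative^[n] ((X ^ 2 - 1) ^ n)

/-- `f` has only real zeros (nonzero constants and the zero polynomial are admitted). -/
def RealRooted (f : ℝ[X]) : Prop := f = 0 ∨ ∀ z : ℂ, aeval z f = 0 → z.im = 0

/-- `γ` is a Legendre multiplier sequence: whenever `∑ a_k P_k` has only real zeros, so has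
`∑ γ_k a_k P_k` (finite sums). -/
def IsLegendreMultiplier (γ : ℕ → ℝ) : Prop :=
  ∀ (n : ℕ) (a : ℕ → ℝ), RealRooted (∑ k ∈ range (n + 1), C (a k) * legendre k) →
    RealRooted (∑ k ∈ range (n + 1), C (γ k * a k) * legendre k)

/-- `q_k(y) = P_k(1 - 2 y) = ∑_i C(k,i) C(k+i,i) (-y)^i` -/
noncomputable def sl (k : ℕ) : ℝ[X] := (shiftedLegendre k).map (Int.castRingHom ℝ)

lemma comp_lin_derivative (f : ℝ[X]) :
    (derivative f).comp (1 - C 2 * X) = C (-1 / 2) * derivative (f.comp (1 - C 2 * X)) := by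
  rw [derivative_comp]
  have : derivative (1 - C 2 * X : ℝ[X]) = C (-2) := by
    simp
  rw [this, ← mul_assoc, ← C_mul]
  norm_num

lemma comp_lin_iterate (f : ℝ[X]) (k : ℕ) :
    (derivative^[k] f).comp (1 - C 2 * X) =
      C ((-1 / 2) ^ k) * derivative^[k] (f.comp (1 - C 2 * X)) := by
  induction k with
  | zero => simp
  | succ k ih =>
    rw [Function.iterate_succ_apply', comp_lin_derivative, ih, Function.iterate_succ_apply',
      derivative_C_mul, ← mul_assoc, ← C_mul, pow_succ]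
    congr 2
    ring

lemma legendre_comp (k : ℕ) : (legendre k).comp (1 - C 2 * X) = sl k := by
  have h1 : ((X ^ 2 - 1 : ℝ[X]) ^ k).comp (1 - C 2 * X) = C ((-4) ^ k) * (X ^ k * (1 - X) ^ k) := by
    rw [pow_comp, sub_comp, pow_comp, X_comp, one_comp, ← mul_pow, map_pow, ← mul_pow]
    congr 1
    have : (C (-4) : ℝ[X]) = -4 := by rw [C_neg]; exact congrArg _ (C_ofNat 4)
    have h2 : (C 2 : ℝ[X]) = 2 := C_ofNat 2
    rw [this, h2]
    ring
  have h2 : (k.factorial : ℝ[X]) * sl k = derivative^[k] (X ^ k * (1 - (X : ℝ[X])) ^ k) := by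
    have := congrArg (Polynomial.map (Int.castRingHom ℝ)) (factorial_mul_shiftedLegendre_eq k)
    rw [Polynomial.map_mul, ← iterate_derivative_map] at this
    simpa [sl] using this
  rw [legendre, mul_comp, C_comp, comp_lin_iterate, h1, iterate_derivative_C_mul, ← h2,
    ← C_eq_natCast, ← mul_assoc, ← mul_assoc, ← mul_assoc, ← C_mul, ← C_mul, ← C_mul]
  have h3 : (1 / (2 ^ k * (k.factorial : ℝ)) * (-1 / 2) ^ k * (-4) ^ k * k.factorial) = 1 := by
    have h4 : (k.factorial : ℝ) ≠ 0 := by exact_mod_cast k.factorial_ne_zero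
    have h5 : ((-1 / 2 : ℝ) ^ k * (-4) ^ k) = 2 ^ k := by
      rw [← mul_pow]; norm_num
    have h6 : (2 : ℝ) ^ k ≠ 0 := by positivity
    calc (1 / (2 ^ k * (k.factorial : ℝ)) * (-1 / 2) ^ k * (-4) ^ k * k.factorial)
        = (1 / (2 ^ k * (k.factorial : ℝ)) * k.factorial) * ((-1 / 2) ^ k * (-4) ^ k) := by ring
      _ = 1 := by rw [h5]; field_simp
  rw [h3]
  simp

lemma sl_coeff (k i : ℕ) :
    (sl k).coeff i = (-1) ^ i * ((k.choose i : ℝ) * ((k + i).choose i : ℝ)) := by
  rw [sl, coeff_map, coeff_shiftedLegendre]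
  have : (k + i).choose k = (k + i).choose i := by
    rw [Nat.choose_symm_add]
  rw [this]
  simp
  ring

lemma RealRooted.splits {f : ℝ[X]} (h : RealRooted f) : f.Splits := by
  rcases h with rfl | h
  · exact Splits.zero
  apply Splits.of_splits_map (algebraMap ℝ ℂ) (IsAlgClosed.splits _)
  intro a ha
  have h0 : f.map (algebraMap ℝ ℂ) ≠ 0 := by rintro h1; simp [h1] at ha
  rw [mem_roots h0, IsRoot.def, eval_map_algebraMap] at ha
  have := h a ha
  exact ⟨a.re, by apply Complex.ext <;> simp [this]⟩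

lemma RealRooted.comp_lin {f : ℝ[X]} (h : RealRooted f) : RealRooted (f.comp (1 - C 2 * X)) := by
  rcases h with rfl | h
  · left; simp
  right
  intro z hz
  rw [aeval_comp] at hz
  have h1 := h _ hz
  simp at h1
  exact h1

end Helper669.LM
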