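import Pool.Agent.Helper669_lm.Main
import Pool.Agent.Helper722.RR.Newton

set_option autoImplicit false

open Polynomial Finset Filter Topology

namespace Helper669.LM

lemma newton {f : ℝ[X]} (hf : f.Splits) (k : ℕ) :
    ((k : ℝ) + 2) * (f.coeff k * f.coeff (k + 2)) ≤ ((k : ℝ) + 1) * f.coeff (k + 1) ^ 2 := by
  have h := RR722.NW.newton_deg hf (f.natDegree + k + 2) (by omega) k (by omega)
  push_cast at h
  have hN : (0 : ℝ) ≤ (f.natDegree : ℝ) := by positivity
  have h1 : (0 : ℝ) ≤ f.coeff (k + 1) ^ 2 := sq_nonneg _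
  have hk : (0 : ℝ) ≤ (k : ℝ) := by positivity
  have h2 : ((f.natDegree : ℝ) + 2) * (((k : ℝ) + 2) * (f.coeff k * f.coeff (k + 2))) ≤
      ((f.natDegree : ℝ) + 2) * (((k : ℝ) + 1) * f.coeff (k + 1) ^ 2) := by
    have e1 : ((k : ℝ) + 2) * ((f.natDegree : ℝ) + k + 2 - k) * (f.coeff k * f.coeff (k + 2)) =
      ((f.natDegree : ℝ) + 2) * (((k : ℝ) + 2) * (f.coeff k * f.coeff (k + 2))) := by ring
    rw [e1] at h
    refine h.trans ?_
    have e2 : ((f.natDegree : ℝ) + 2) * (((k : ℝ) + 1) * f.coeff (k + 1) ^ 2) -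
      ((k : ℝ) + 1) * ((f.natDegree : ℝ) + k + 2 - k - 1) * f.coeff (k + 1) ^ 2 =
      ((k : ℝ) + 1) * f.coeff (k + 1) ^ 2 := by ring
    have e3 : 0 ≤ ((k : ℝ) + 1) * f.coeff (k + 1) ^ 2 := by positivity
    linarith
  exact le_of_mul_le_mul_left h2 (by linarith)

/-- falling factorial -/
noncomputable def D (x : ℝ) (m : ℕ) : ℝ := ∏ i ∈ range m, (x - i)

lemma D_succ (x : ℝ) (m : ℕ) : D x (m + 1) = D x m * (x - m) := by
  rw [D, Finset.prod_range_succ, ← D]

lemma D_add (x y : ℝ) (j : ℕ) :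
    D (x + y) j = ∑ ij ∈ antidiagonal j, (j.choose ij.1 : ℝ) * (D x ij.1 * D y ij.2) := by
  induction j with
  | zero => simp [D]
  | succ j ih =>
    rw [D_succ, ih, Finset.sum_antidiagonal_choose_succ_mul (fun p m => D x p * D y m) j,
      Finset.sum_mul, ← Finset.sum_add_distrib]
    refine Finset.sum_congr rfl fun ij hij => ?_
    have h1 : ij.1 + ij.2 = j := by simpa using hij
    have h2 : (j.choose ij.2 : ℝ) = (j.choose ij.1 : ℝ) := by
      rw [← h1, Nat.choose_symm_add]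
    have h3 : (j : ℝ) = (ij.1 : ℝ) + (ij.2 : ℝ) := by rw [← h1]; push_cast; ring
    rw [h2, D_succ, D_succ]
    linear_combination (-(j.choose ij.1 : ℝ) * (D x ij.1 * D y ij.2)) * h3

lemma D_nat (p m : ℕ) : D ((p + m : ℕ) : ℝ) p = ((p + m).factorial : ℝ) / m.factorial := by
  induction p generalizing m with
  | zero => 
    have : (m.factorial : ℝ) ≠ 0 := by exact_mod_cast m.factorial_ne_zero
    simp [D]
    field_simp
  | succ p ih =>
    have h := ih (m + 1)
    rw [D_succ, show p + 1 + m = p + (m + 1) by ring, h, Nat.factorial_succ m]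
    have : (m.factorial : ℝ) ≠ 0 := by exact_mod_cast m.factorial_ne_zero
    have h2 : ((m : ℝ) + 1) ≠ 0 := by positivity
    push_cast
    field_simp
    ring

lemma D_neg (a : ℝ) (m : ℕ) : D (-a) m = (-1) ^ m * poch a m := by
  induction m with
  | zero => simp [D]
  | succ m ih => rw [D_succ, ih, poch_succ, pow_succ]; ring

lemma D_refl (a : ℝ) (j : ℕ) : D ((j : ℝ) + -a) j = poch (1 - a) j := by
  rw [D, poch, ← Finset.prod_range_reflect]
  refine Finset.prod_congr rfl fun i hi => ?_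
  have : i + 1 ≤ j := Finset.mem_range.1 hi
  have h : ((j - 1 - i : ℕ) : ℝ) = (j : ℝ) - 1 - i := by
    rw [Nat.sub_sub, Nat.cast_sub (by omega)]; push_cast; ring
  rw [h]; ring

lemma kummer (a : ℝ) (j : ℕ) :
    ∑ x ∈ antidiagonal j, (1 / (x.1.factorial : ℝ)) *
      ((-1) ^ x.2 * (poch a x.2 / (x.2.factorial : ℝ) ^ 2)) =
    poch (1 - a) j / (j.factorial : ℝ) ^ 2 := by
  rw [← D_refl, D_add, Finset.sum_div]
  refine Finset.sum_congr rfl fun x hx => ?_
  have h1 : x.1 + x.2 = j := by simpa using hx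
  subst h1
  rw [D_nat, D_neg, Nat.cast_choose ℝ (Nat.le_add_right _ _), Nat.add_sub_cancel_left]
  have h2 : (x.1.factorial : ℝ) ≠ 0 := by exact_mod_cast Nat.factorial_ne_zero _
  have h3 : (x.2.factorial : ℝ) ≠ 0 := by exact_mod_cast Nat.factorial_ne_zero _
  have h4 : ((x.1 + x.2).factorial : ℝ) ≠ 0 := by exact_mod_cast Nat.factorial_ne_zero _
  field_simp

lemma poch_add (a : ℝ) (m n : ℕ) : poch a (m + n) = poch a m * poch (a + m) n := by
  induction n with
  | zero => simp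
  | succ n ih => rw [← add_assoc, poch_succ, ih, poch_succ]; push_cast; ring

lemma pow_coeff (n i : ℕ) : ((1 - X : ℝ[X]) ^ n).coeff i = (-1) ^ i * (n.choose i : ℝ) := by
  have h : (1 - X : ℝ[X]) = C (-1) * (X + C (-1)) := by simp; ring
  rw [h, mul_pow, ← C_pow, coeff_C_mul, coeff_X_add_C_pow]
  rcases Nat.lt_or_ge n i with h1 | h1
  · rw [Nat.choose_eq_zero_of_lt h1]; simp
  · obtain ⟨m, rfl⟩ := Nat.exists_eq_add_of_le h1
    rw [Nat.add_sub_cancel_left, ← mul_assoc, ← pow_add]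
    congr 1
    rw [show i + m + m = i + 2 * m by ring, pow_add, pow_mul]
    norm_num

/-- the expansion of `((1+x)/2)^n` -/
noncomputable def a (n k : ℕ) : ℝ := (2 * (k : ℝ) + 1) * b n k

lemma expand (n : ℕ) : ∑ k ∈ range (n + 1), C (a n k) * sl k = (1 - X : ℝ[X]) ^ n := by
  ext i
  rw [finsetSum_coeff, pow_coeff]
  have h := E_pp i n
  have h1 : ∀ k ∈ range (n + 1), (C (a n k) * sl k).coeff i =
      (-1) ^ i * ((vE k * b n k * (pp i).eval ((k : ℝ) * (k + 1))) / (i.factorial : ℝ) ^ 2) := by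
    intro k _
    rw [coeff_C_mul, sl_coeff, w_eq, a, vE]
    ring
  rw [Finset.sum_congr rfl h1, ← Finset.mul_sum, ← Finset.sum_div, ← Lam, h]
  congr 1
  have h2 : ∀ i : ℕ, poch 1 i = (i.factorial : ℝ) := by
    intro i
    induction i with
    | zero => simp
    | succ i ih => rw [poch_succ, ih, Nat.factorial_succ]; push_cast; ring
  have h3 : (i.factorial : ℝ) ≠ 0 := by exact_mod_cast Nat.factorial_ne_zero _
  rw [h2, Nat.descFactorial_eq_factorial_mul_choose]
  push_cast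
  field_simp

lemma sum_comp (n : ℕ) (c : ℕ → ℝ) :
    (∑ k ∈ range (n + 1), C (c k) * legendre k).comp (1 - C 2 * X) =
      ∑ k ∈ range (n + 1), C (c k) * sl k := by
  rw [Polynomial.sum_comp]
  refine Finset.sum_congr rfl fun k _ => ?_
  rw [mul_comp, C_comp, legendre_comp]

lemma realRooted_base (n : ℕ) : RealRooted (∑ k ∈ range (n + 1), C (a n k) * legendre k) := by
  right
  intro z hz
  have h := sum_comp n (a n)
  rw [expand] at h
  have h1 := congrArg (aeval ((1 - z) / 2)) h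
  rw [aeval_comp] at h1
  have h2 : aeval ((1 - z) / 2) (1 - C 2 * X : ℝ[X]) = z := by
    simp
    ring
  rw [h2, hz] at h1
  simp only [map_pow, map_sub, map_one, aeval_X] at h1
  have h3 : 1 - (1 - z) / 2 = 0 := by
    rcases Nat.eq_zero_or_pos n with h0 | h0
    · subst h0; simp at h1
    · exact pow_eq_zero_iff (by omega) |>.1 h1.symm
  have h4 : z = -1 := by linear_combination 2 * h3
  rw [h4]; simp

/-- the polynomial `(1+y)^n T[(1-y)^n]` -/
noncomputable def R (Q : ℝ[X]) (n : ℕ) : ℝ[X] :=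
  (1 + X) ^ n * ∑ k ∈ range (n + 1), C (Q.eval (k : ℝ) * a n k) * sl k

lemma R_coeff (Q : ℝ[X]) (n j : ℕ) : (R Q n).coeff j =
    ∑ x ∈ antidiagonal j, (n.choose x.1 : ℝ) * ((-1) ^ x.2 * t Q n x.2) := by
  rw [R, coeff_mul]
  refine Finset.sum_congr rfl fun x _ => ?_
  rw [coeff_one_add_X_pow, finsetSum_coeff, t]
  congr 1
  rw [Finset.mul_sum]
  refine Finset.sum_congr rfl fun k _ => ?_
  rw [coeff_C_mul, sl_coeff, a]
  ring

lemma tendsto_choose (p : ℕ) :
    Tendsto (fun n : ℕ => (n.choose p : ℝ) / (n : ℝ) ^ p) atTop (𝓝 (1 / (p.factorial : ℝ))) := by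
  have h := (tendsto_desc p).div_const (p.factorial : ℝ)
  refine h.congr fun n => ?_
  have h3 : (p.factorial : ℝ) ≠ 0 := by exact_mod_cast Nat.factorial_ne_zero _
  rw [Nat.descFactorial_eq_factorial_mul_choose]
  push_cast
  field_simp

lemma R_lim (Q : ℝ[X]) (r : ℕ) (hQ : Q.natDegree ≤ 2 * r + 1) (j : ℕ) :
    Tendsto (fun n : ℕ => (R Q n).coeff j / (s n * (n : ℝ) ^ (r + 1 + j))) atTop
      (𝓝 (2 * Q.coeff (2 * r + 1) * poch (1 / 2) (r + 1) *
        (poch (-(r : ℝ) - 1 / 2) j / (j.factorial : ℝ) ^ 2))) := by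
  have h1 : Tendsto (fun n : ℕ => ∑ x ∈ antidiagonal j, ((n.choose x.1 : ℝ) / (n : ℝ) ^ x.1) *
      ((-1) ^ x.2 * (t Q n x.2 / (s n * (n : ℝ) ^ (r + 1 + x.2))))) atTop
      (𝓝 (∑ x ∈ antidiagonal j, (1 / (x.1.factorial : ℝ)) * ((-1) ^ x.2 *
        (2 * Q.coeff (2 * r + 1) * poch (1 / 2) (r + 1 + x.2) / (x.2.factorial : ℝ) ^ 2)))) := by
    refine tendsto_finsetSum _ fun x _ => ?_
    exact (tendsto_choose x.1).mul (tendsto_const_nhds.mul (t_lim Q r hQ x.2))
  have h2 : ∑ x ∈ antidiagonal j, (1 / (x.1.factorial : ℝ)) * ((-1) ^ x.2 *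
        (2 * Q.coeff (2 * r + 1) * poch (1 / 2) (r + 1 + x.2) / (x.2.factorial : ℝ) ^ 2)) =
      2 * Q.coeff (2 * r + 1) * poch (1 / 2) (r + 1) *
        (poch (-(r : ℝ) - 1 / 2) j / (j.factorial : ℝ) ^ 2) := by
    have h3 := kummer (1 / 2 + ((r + 1 : ℕ) : ℝ)) j
    have h4 : (1 - (1 / 2 + ((r + 1 : ℕ) : ℝ))) = -(r : ℝ) - 1 / 2 := by push_cast; ring
    rw [h4] at h3
    rw [← h3, Finset.mul_sum]
    refine Finset.sum_congr rfl fun x _ => ?_
    rw [poch_add]
    ring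
  rw [h2] at h1
  refine h1.congr' ?_
  filter_upwards [eventually_ge_atTop 1] with n hn
  have hn0 : (n : ℝ) ≠ 0 := by positivity
  have hs := (s_pos n).ne'
  rw [R_coeff, Finset.sum_div]
  refine Finset.sum_congr rfl fun x hx => ?_
  have h1 : x.1 + x.2 = j := by simpa using hx
  rw [← h1, show r + 1 + (x.1 + x.2) = x.1 + (r + 1 + x.2) by ring, pow_add (n : ℝ) x.1]
  field_simp

theorem main (Q : ℝ[X]) (hQ : Odd Q.natDegree) :
    ¬ IsLegendreMultiplier (fun k => Q.eval (k : ℝ)) := by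
  intro hM
  obtain ⟨r, hr⟩ := hQ
  have hlc : Q.coeff (2 * r + 1) ≠ 0 := by
    rw [← hr, coeff_natDegree]
    intro h
    rw [leadingCoeff_eq_zero] at h
    rw [h] at hr
    simp at hr
  have hsplit : ∀ n, (R Q n).Splits := by
    intro n
    have h1 := hM n (a n) (realRooted_base n)
    have h2 := h1.comp_lin.splits
    rw [sum_comp] at h2
    rw [R]
    refine Splits.mul ?_ h2
    refine Splits.pow ?_ n
    have : (1 + X : ℝ[X]) = X + C 1 := by simp [add_comm]
    rw [this]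
    exact Splits.X_add_C 1
  set k := r + 1 with hk
  have hnew := fun n => newton (hsplit n) k
  have l0 := R_lim Q r hr.le k
  have l1 := R_lim Q r hr.le (k + 1)
  have l2 := R_lim Q r hr.le (k + 2)
  set κ := 2 * Q.coeff (2 * r + 1) * poch (1 / 2) (r + 1) with hκ
  set P := poch (-(r : ℝ) - 1 / 2) k with hP
  have hpoch : ∀ m, 0 < poch (1 / 2) m := by
    intro m
    rw [poch]
    exact Finset.prod_pos fun i _ => by positivity
  have hκ0 : κ ≠ 0 := by
    rw [hκ]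
    exact mul_ne_zero (mul_ne_zero two_ne_zero hlc) (hpoch _).ne'
  have hP0 : P ≠ 0 := by
    rw [hP, poch, Finset.prod_ne_zero_iff]
    intro i hi
    have : i ≤ r := by have := Finset.mem_range.1 hi; omega
    have h5 : (i : ℝ) ≤ r := by exact_mod_cast this
    have : -(r : ℝ) - 1 / 2 + i < 0 := by linarith
    exact this.ne
  have e1 : poch (-(r : ℝ) - 1 / 2) (k + 1) = P * (1 / 2) := by
    rw [poch_succ, ← hP, hk]; push_cast; ring
  have e2 : poch (-(r : ℝ) - 1 / 2) (k + 2) = P * (1 / 2) * (3 / 2) := by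
    rw [show k + 2 = (k + 1) + 1 by ring, poch_succ, e1, hk]; push_cast; ring
  rw [e1] at l1
  rw [e2] at l2
  have hlim : ((k : ℝ) + 2) * ((κ * (P / (k.factorial : ℝ) ^ 2)) *
      (κ * (P * (1 / 2) * (3 / 2) / ((k + 2).factorial : ℝ) ^ 2))) ≤
      ((k : ℝ) + 1) * (κ * (P * (1 / 2) / ((k + 1).factorial : ℝ) ^ 2)) ^ 2 := by
    refine le_of_tendsto_of_tendsto (tendsto_const_nhds.mul (l0.mul l2))
      (tendsto_const_nhds.mul (l1.pow 2)) ?_
    filter_upwards [eventually_ge_atTop 1] with n hn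
    have hn0 : (0 : ℝ) < n := by positivity
    have hs := s_pos n
    have h := hnew n
    have h3 : (0 : ℝ) < (s n * (n : ℝ) ^ (r + 1 + (k + 1))) ^ 2 := by positivity
    have h4 : (s n * (n : ℝ) ^ (r + 1 + k)) * (s n * (n : ℝ) ^ (r + 1 + (k + 2))) =
        (s n * (n : ℝ) ^ (r + 1 + (k + 1))) ^ 2 := by ring
    rw [div_mul_div_comm, h4, div_pow, ← mul_div_assoc, ← mul_div_assoc]
    exact (div_le_div_iff_of_pos_right h3).2 h
  have hf : (0 : ℝ) < (k.factorial : ℝ) := by exact_mod_cast Nat.factorial_pos _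
  have e3 : ((k + 1).factorial : ℝ) = ((k : ℝ) + 1) * k.factorial := by
    rw [Nat.factorial_succ]; push_cast; ring
  have e4 : ((k + 2).factorial : ℝ) = ((k : ℝ) + 2) * (((k : ℝ) + 1) * k.factorial) := by
    rw [Nat.factorial_succ, Nat.cast_mul, e3]; push_cast; ring
  rw [e3, e4] at hlim
  have hk0 : (0 : ℝ) ≤ (k : ℝ) := by positivity
  have h5 : ((k : ℝ) + 2) * ((κ * (P / (k.factorial : ℝ) ^ 2)) *
      (κ * (P * (1 / 2) * (3 / 2) / (((k : ℝ) + 2) * (((k : ℝ) + 1) * k.factorial)) ^ 2))) =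
      (κ * P / ((k.factorial : ℝ) ^ 2 * ((k : ℝ) + 1))) ^ 2 * (3 / 4 / ((k : ℝ) + 2)) := by
    field_simp
    ring
  have h6 : ((k : ℝ) + 1) * (κ * (P * (1 / 2) / (((k : ℝ) + 1) * k.factorial) ^ 2)) ^ 2 =
      (κ * P / ((k.factorial : ℝ) ^ 2 * ((k : ℝ) + 1))) ^ 2 * (1 / 4 / ((k : ℝ) + 1)) := by
    field_simp
    ring
  rw [h5, h6] at hlim
  have h7 : 0 < (κ * P / ((k.factorial : ℝ) ^ 2 * ((k : ℝ) + 1))) ^ 2 := by positivity
  have h8 := le_of_mul_le_mul_left hlim h7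
  rw [div_le_div_iff₀ (by positivity) (by positivity)] at h8
  linarith

end Helper669.LM
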