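import Pool.Agent.Helper669_lm.Sums

set_option autoImplicit false

open Polynomial Finset Filter Topology

namespace Helper669.LM

lemma tendsto_const_div (c : ℝ) : Tendsto (fun n : ℕ => c / (n : ℝ)) atTop (𝓝 0) :=
  tendsto_const_div_atTop_nhds_zero_nat c

lemma tendsto_desc (m : ℕ) :
    Tendsto (fun n : ℕ => (n.descFactorial m : ℝ) / (n : ℝ) ^ m) atTop (𝓝 1) := by
  induction m with
  | zero => simp
  | succ m ih =>
    have h1 : Tendsto (fun n : ℕ => (1 - (m : ℝ) / n) * ((n.descFactorial m : ℝ) / (n : ℝ) ^ m))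
        atTop (𝓝 ((1 - 0) * 1)) := ((tendsto_const_nhds).sub (tendsto_const_div (m : ℝ))).mul ih
    rw [sub_zero, one_mul] at h1
    refine h1.congr' ?_
    filter_upwards [eventually_ge_atTop (m + 1)] with n hn
    have hn0 : (n : ℝ) ≠ 0 := by
      have : 0 < n := by omega
      positivity
    rw [Nat.descFactorial_succ]
    push_cast [Nat.cast_sub (show m ≤ n by omega)]
    rw [pow_succ]
    field_simp

lemma lim_gen (v : ℕ → ℝ) (ρ : ℕ → ℝ) (θ : ℝ) (hρ : ∀ n, ρ n ≠ 0)
    (hpp : ∀ m n, Lam v n (pp m) = ρ n * poch θ m * (n.descFactorial m : ℝ)) (m : ℕ) :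
    ∀ h : ℝ[X], h.natDegree ≤ m →
      Tendsto (fun n : ℕ => Lam v n h / (ρ n * (n : ℝ) ^ m)) atTop (𝓝 (h.coeff m * poch θ m)) := by
  induction m with
  | zero =>
    intro h hh
    rw [eq_C_of_natDegree_le_zero hh]
    have : (fun n : ℕ => Lam v n (C (h.coeff 0)) / (ρ n * (n : ℝ) ^ 0)) =
        fun _ => (C (h.coeff 0)).coeff 0 * poch θ 0 := by
      funext n
      have h1 := Lam_C_mul v n (h.coeff 0) (pp 0)
      rw [hpp] at h1
      have h2 : (pp 0 : ℝ[X]) = 1 := by simp [pp]
      rw [h2, mul_one] at h1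
      rw [h1]
      have := hρ n
      simp
      field_simp
    rw [this]
    exact tendsto_const_nhds
  | succ m ih =>
    intro h hh
    set c := h.coeff (m + 1) with hc
    set h' := h - C c * pp (m + 1) with hh'
    have hlc : (pp (m + 1)).coeff (m + 1) = 1 := by
      have h1 := (pp_monic (m + 1)).coeff_natDegree
      rwa [pp_natDegree] at h1
    have hd : h'.natDegree ≤ m := by
      rw [natDegree_le_iff_coeff_eq_zero]
      intro N hN
      rcases Nat.lt_or_ge (m + 1) N with h1 | h1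
      · rw [hh', coeff_sub, coeff_eq_zero_of_natDegree_lt (lt_of_le_of_lt hh h1), coeff_C_mul,
          coeff_eq_zero_of_natDegree_lt (by rw [pp_natDegree]; exact h1)]
        simp
      · have : N = m + 1 := by omega
        rw [this, hh', coeff_sub, coeff_C_mul, hlc, ← hc]; ring
    have h1 := ih h' hd
    have h2 : Tendsto (fun n : ℕ => (Lam v n h' / (ρ n * (n : ℝ) ^ m)) * (1 / (n : ℝ)) +
        c * poch θ (m + 1) * ((n.descFactorial (m + 1) : ℝ) / (n : ℝ) ^ (m + 1))) atTop
        (𝓝 ((h'.coeff m * poch θ m) * 0 + c * poch θ (m + 1) * 1)) :=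
      (h1.mul (tendsto_const_div 1)).add (tendsto_const_nhds.mul (tendsto_desc (m + 1)))
    rw [mul_zero, zero_add, mul_one] at h2
    refine h2.congr' ?_
    filter_upwards [eventually_ge_atTop 1] with n hn
    have hn0 : (n : ℝ) ≠ 0 := by positivity
    have h3 : h = h' + C c * pp (m + 1) := by rw [hh']; ring
    conv_rhs => rw [h3]
    rw [Lam_add, Lam_C_mul, hpp]
    have := hρ n
    rw [pow_succ]
    field_simp

lemma tendsto_s : Tendsto (fun n : ℕ => s n * (n : ℝ)) atTop atTop := by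
  have h1 : ∀ n : ℕ, (n : ℝ) + 1 ≤ (4 * (s n * ((n : ℝ) + 1 / 2)) ^ 2) := by
    intro n
    induction n with
    | zero => simp [s]; norm_num
    | succ n ih =>
      have h2 := s_rec n
      have h3 : s (n + 1) * ((n : ℝ) + 1 + 1 / 2) = ((n : ℝ) + 1) * s n := by
        rw [h2]; ring
      push_cast
      rw [h3]
      have h4 : 0 < s n := s_pos n
      have h5 : (0 : ℝ) < (n : ℝ) + 1 / 2 := by positivity
      have h6 : ((n : ℝ) + 1) * s n = (s n * ((n : ℝ) + 1 / 2)) * (((n : ℝ) + 1) / ((n : ℝ) + 1 / 2)) := by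
        field_simp
      rw [h6, mul_pow, ← mul_assoc]
      have h7 : ((n : ℝ) + 1 + 1) ≤ ((n : ℝ) + 1) * (((n : ℝ) + 1) / ((n : ℝ) + 1 / 2)) ^ 2 := by
        rw [div_pow, ← mul_div_assoc, le_div_iff₀ (by positivity)]
        have : (0 : ℝ) ≤ n := by positivity
        nlinarith
      exact h7.trans (mul_le_mul_of_nonneg_right ih (by positivity))
  have h2 : ∀ n : ℕ, 1 ≤ n → Real.sqrt n / 4 ≤ s n * n := by
    intro n hn
    have h3 := h1 n
    have h4 : 0 < s n := s_pos n
    have h5 : (1 : ℝ) ≤ n := by exact_mod_cast hn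
    have h6 : s n * ((n : ℝ) + 1 / 2) ≤ 2 * (s n * n) := by nlinarith
    have h7 : (0 : ℝ) ≤ s n * ((n : ℝ) + 1 / 2) := by positivity
    have h8 : (n : ℝ) ≤ (4 * (s n * n)) ^ 2 := by nlinarith
    have h9 : Real.sqrt n ≤ 4 * (s n * n) := by
      rw [Real.sqrt_le_left (by positivity)]
      exact h8
    linarith
  have h3 : Tendsto (fun n : ℕ => Real.sqrt n / 4) atTop atTop :=
    (Real.tendsto_sqrt_atTop.comp tendsto_natCast_atTop_atTop).atTop_div_const (by norm_num)
  refine tendsto_atTop_mono' _ ?_ h3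
  filter_upwards [eventually_ge_atTop 1] with n hn using h2 n hn

end Helper669.LM
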