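import Pool.Agent.Helper669_lm.Defs
import Pool.Agent.Helper669_lm.Lim

set_option autoImplicit false

open Polynomial Finset Filter Topology

namespace Helper669.LM

lemma monic_sq_add : ((X : ℝ[X]) ^ 2 + X).Monic := by
  refine monic_X_pow_add (n := 2) ?_
  rw [degree_X]
  norm_num

lemma natDegree_sq_add : ((X : ℝ[X]) ^ 2 + X).natDegree = 2 := by
  rw [natDegree_add_eq_left_of_natDegree_lt]
  · exact natDegree_X_pow 2
  · rw [natDegree_X_pow, natDegree_X]; norm_num

lemma decomp (r : ℕ) : ∀ Q : ℝ[X], Q.natDegree ≤ 2 * r + 1 → ∃ A B : ℝ[X],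
    A.natDegree ≤ r ∧ B.natDegree ≤ r ∧ B.coeff r = Q.coeff (2 * r + 1) / 2 ∧
    ∀ x : ℝ, Q.eval x = A.eval (x * (x + 1)) + (2 * x + 1) * B.eval (x * (x + 1)) := by
  induction r with
  | zero =>
    intro Q hQ
    refine ⟨C (Q.coeff 0 - Q.coeff 1 / 2), C (Q.coeff 1 / 2), by simp, by simp, by simp, ?_⟩
    intro x
    have h := Polynomial.eq_X_add_C_of_natDegree_le_one (by simpa using hQ : Q.natDegree ≤ 1)
    conv_lhs => rw [h]
    simp
    ring
  | succ r ih =>
    intro Q hQ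
    have hPm : ((X : ℝ[X]) ^ 2 + X).Monic := monic_sq_add
    have hPd : ((X : ℝ[X]) ^ 2 + X).natDegree = 2 := natDegree_sq_add
    set P : ℝ[X] := (X ^ 2 + X) ^ (r + 1) with hP
    have hPmon : P.Monic := hPm.pow _
    have hPdeg : P.natDegree = 2 * r + 2 := by
      rw [hP, hPm.natDegree_pow, hPd]; ring
    have hPco : P.coeff (2 * r + 2) = 1 := by
      have := hPmon.coeff_natDegree
      rwa [hPdeg] at this
    have hPco' : P.coeff (2 * r + 3) = 0 := coeff_eq_zero_of_natDegree_lt (by omega)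
    set c := Q.coeff (2 * r + 3) with hc
    set Q1 := Q - C (c / 2) * ((2 * X + 1) * P) with hQ1
    have hL : ∀ N, ((2 * X + 1) * P : ℝ[X]).coeff (N + 1) = 2 * P.coeff N + P.coeff (N + 1) := by
      intro N
      have : ((2 * X + 1) * P : ℝ[X]) = C 2 * (X * P) + P := by
        rw [show (C 2 : ℝ[X]) = 2 from C_ofNat 2]; ring
      rw [this, coeff_add, coeff_C_mul, coeff_X_mul]
    have hd1 : Q1.natDegree ≤ 2 * r + 2 := by
      rw [natDegree_le_iff_coeff_eq_zero]
      intro N hN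
      obtain ⟨M, rfl⟩ : ∃ M, N = M + 1 := ⟨N - 1, by omega⟩
      rw [hQ1, coeff_sub, coeff_C_mul, hL]
      rcases Nat.lt_or_ge (2 * r + 2) M with h | h
      · rw [coeff_eq_zero_of_natDegree_lt (show Q.natDegree < M + 1 by omega),
          coeff_eq_zero_of_natDegree_lt (show P.natDegree < M by omega),
          coeff_eq_zero_of_natDegree_lt (show P.natDegree < M + 1 by omega)]
        ring
      · have : M = 2 * r + 2 := by omega
        subst this
        rw [hPco, hPco', ← hc]; ring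
    set c' := Q1.coeff (2 * r + 2) with hc'
    set Q2 := Q1 - C c' * P with hQ2
    have hd2 : Q2.natDegree ≤ 2 * r + 1 := by
      rw [natDegree_le_iff_coeff_eq_zero]
      intro N hN
      rw [hQ2, coeff_sub, coeff_C_mul]
      rcases Nat.lt_or_ge (2 * r + 2) N with h | h
      · rw [coeff_eq_zero_of_natDegree_lt (show Q1.natDegree < N by omega),
          coeff_eq_zero_of_natDegree_lt (show P.natDegree < N by omega)]
        ring
      · have : N = 2 * r + 2 := by omega
        subst this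
        rw [hPco, ← hc']; ring
    obtain ⟨A, B, hA, hB, _, hx⟩ := ih Q2 hd2
    refine ⟨A + C c' * X ^ (r + 1), B + C (c / 2) * X ^ (r + 1), ?_, ?_, ?_, ?_⟩
    · refine (natDegree_add_le _ _).trans (max_le (by omega) (natDegree_C_mul_X_pow_le _ _))
    · refine (natDegree_add_le _ _).trans (max_le (by omega) (natDegree_C_mul_X_pow_le _ _))
    · rw [coeff_add, coeff_eq_zero_of_natDegree_lt (show B.natDegree < r + 1 by omega),
        coeff_C_mul, coeff_X_pow, if_pos rfl]
      rw [show 2 * (r + 1) + 1 = 2 * r + 3 by ring, ← hc]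
      ring
    · intro x
      have h3 : Q = Q2 + C c' * P + C (c / 2) * ((2 * X + 1) * P) := by
        rw [hQ2, hQ1]; ring
      conv_lhs => rw [h3]
      have h4 : P.eval x = (x * (x + 1)) ^ (r + 1) := by
        rw [hP]; simp; ring
      simp only [eval_add, eval_mul, eval_C, eval_X, eval_pow, hx, h4, eval_ofNat, eval_one]
      ring

lemma w_eq (k i : ℕ) : (k.choose i : ℝ) * ((k + i).choose i : ℝ) =
    (pp i).eval ((k : ℝ) * (k + 1)) / (i.factorial : ℝ) ^ 2 := by
  induction i with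
  | zero => simp [pp]
  | succ i ih =>
    have h1 : (k.choose (i + 1) : ℝ) * ((i : ℝ) + 1) = (k.choose i : ℝ) * ((k : ℝ) - i) := by
      rcases Nat.lt_or_ge k i with h | h
      · rw [Nat.choose_eq_zero_of_lt h, Nat.choose_eq_zero_of_lt (show k < i + 1 by omega)]; simp
      · have := Nat.choose_succ_right_eq k i
        have h2 : ((k.choose (i + 1) * (i + 1) : ℕ) : ℝ) = ((k.choose i * (k - i) : ℕ) : ℝ) := by
          rw [this]
        push_cast [Nat.cast_sub h] at h2
        exact h2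
    have h2 : (((k + (i + 1)).choose (i + 1) : ℕ) : ℝ) * ((i : ℝ) + 1) =
        ((k : ℝ) + i + 1) * ((k + i).choose i : ℝ) := by
      have := Nat.add_one_mul_choose_eq (k + i) i
      have h3 : (((k + i + 1) * (k + i).choose i : ℕ) : ℝ) =
          (((k + i + 1).choose (i + 1) * (i + 1) : ℕ) : ℝ) := by rw [this]
      push_cast at h3
      rw [← add_assoc]
      linarith
    rw [pp_succ, eval_sub, eval_mul, eval_mul, eval_X, eval_C, Nat.factorial_succ]
    have h3 : (i.factorial : ℝ) ≠ 0 := by exact_mod_cast i.factorial_ne_zero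
    have h4 : ((i : ℝ) + 1) ≠ 0 := by positivity
    rw [eq_div_iff (by positivity)] at ih ⊢
    push_cast
    linear_combination (((k + (i + 1)).choose (i + 1) : ℕ) : ℝ) * ((i : ℝ) + 1) *
      (i.factorial : ℝ) ^ 2 * h1 + (k.choose i : ℝ) * ((k : ℝ) - i) * (i.factorial : ℝ) ^ 2 * h2 +
      ((k : ℝ) - i) * ((k : ℝ) + i + 1) * ih

/-- `∑_k e(n,k) Q(k) C(k,i) C(k+i,i)` -/
noncomputable def t (Q : ℝ[X]) (n i : ℕ) : ℝ :=
  ∑ k ∈ range (n + 1), ((2 * (k : ℝ) + 1) * b n k * Q.eval (k : ℝ)) *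
    ((k.choose i : ℝ) * ((k + i).choose i : ℝ))

lemma t_eq (Q A B : ℝ[X])
    (h : ∀ x : ℝ, Q.eval x = A.eval (x * (x + 1)) + (2 * x + 1) * B.eval (x * (x + 1)))
    (n i : ℕ) : t Q n i = (Lam vE n (A * pp i) + Lam vS n ((4 * X + 1) * B * pp i)) /
      (i.factorial : ℝ) ^ 2 := by
  rw [t, Lam, Lam, ← Finset.sum_add_distrib, Finset.sum_div]
  refine Finset.sum_congr rfl fun k _ => ?_
  rw [w_eq, h, vE, vS]
  simp only [eval_add, eval_mul, eval_X, eval_ofNat, eval_one]
  ring

lemma E_pp (m n : ℕ) : Lam vE n (pp m) = 1 * poch 1 m * (n.descFactorial m : ℝ) := by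
  refine Lam_pp vE (fun _ => 1) 1 Lam_vE_one (fun n => ?_) m n
  ring

lemma S_pp (m n : ℕ) : Lam vS n (pp m) = s n * poch (1 / 2) m * (n.descFactorial m : ℝ) :=
  Lam_pp vS s (1 / 2) Lam_vS_one s_rec m n

lemma t_lim (Q : ℝ[X]) (r : ℕ) (hQ : Q.natDegree ≤ 2 * r + 1) (i : ℕ) :
    Tendsto (fun n : ℕ => t Q n i / (s n * (n : ℝ) ^ (r + 1 + i))) atTop
      (𝓝 (2 * Q.coeff (2 * r + 1) * poch (1 / 2) (r + 1 + i) / (i.factorial : ℝ) ^ 2)) := by
  obtain ⟨A, B, hA, hB, hBc, hx⟩ := decomp r Q hQ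
  have hAd : (A * pp i).natDegree ≤ r + i :=
    natDegree_mul_le.trans (by rw [pp_natDegree]; omega)
  have h41 : (4 * X + 1 : ℝ[X]) = C 4 * X + C 1 := by
    rw [show (C 4 : ℝ[X]) = 4 from C_ofNat 4]; simp
  have hd4 : (4 * X + 1 : ℝ[X]).natDegree ≤ 1 := by
    rw [h41]; exact natDegree_linear_le
  have hBd : ((4 * X + 1) * B * pp i).natDegree ≤ r + 1 + i := by
    refine natDegree_mul_le.trans ?_
    rw [pp_natDegree]
    have := natDegree_mul_le (p := (4 * X + 1 : ℝ[X])) (q := B)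
    omega
  have hBco : ((4 * X + 1) * B * pp i).coeff (r + 1 + i) = 2 * Q.coeff (2 * r + 1) := by
    have h1 : ((4 * X + 1) * B).natDegree ≤ 1 + r :=
      natDegree_mul_le.trans (add_le_add hd4 hB)
    have h2 := coeff_mul_add_eq_of_natDegree_le h1 (le_of_eq (pp_natDegree i))
    have h3 := coeff_mul_add_eq_of_natDegree_le hd4 hB
    have h4 : (pp i).coeff i = 1 := by
      have h1 := (pp_monic i).coeff_natDegree
      rwa [pp_natDegree] at h1
    have h5 : (4 * X + 1 : ℝ[X]).coeff 1 = 4 := by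
      rw [h41]; simp [coeff_one]
    rw [show r + 1 + i = 1 + r + i by ring, h2, h3, h4, h5, hBc]
    ring
  have l1 := lim_gen vE (fun _ => 1) 1 (fun _ => one_ne_zero) E_pp (r + i) _ hAd
  have l2 := lim_gen vS s (1 / 2) (fun n => (s_pos n).ne') S_pp (r + 1 + i) _ hBd
  rw [hBco] at l2
  have l3 : Tendsto (fun n : ℕ => (s n * (n : ℝ))⁻¹) atTop (𝓝 0) :=
    tendsto_s.inv_tendsto_atTop
  have l4 := ((l1.mul l3).add l2).div_const ((i.factorial : ℝ) ^ 2)
  rw [mul_zero, zero_add] at l4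
  refine l4.congr' ?_
  filter_upwards [eventually_ge_atTop 1] with n hn
  have hn0 : (n : ℝ) ≠ 0 := by positivity
  have hs := (s_pos n).ne'
  have hf : (i.factorial : ℝ) ≠ 0 := by exact_mod_cast i.factorial_ne_zero
  rw [t_eq Q A B hx, show r + 1 + i = (r + i) + 1 by ring, pow_succ]
  field_simp

end Helper669.LM
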