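import Mathlib

set_option autoImplicit false

open Polynomial Finset Filter Topology

namespace Helper669.LM

/-- the weights `(n!)^2 / ((n-k)! (n+k+1)!)` -/
noncomputable def b (n k : ℕ) : ℝ :=
  if k ≤ n then (n.factorial : ℝ) ^ 2 / ((n - k).factorial * (n + k + 1).factorial) else 0

lemma b_rec (n k : ℕ) (hk : k ≤ n + 1) :
    (((n : ℝ) + 1) * (n + 2) - k * (k + 1)) * b (n + 1) k = ((n : ℝ) + 1) ^ 2 * b n k := by
  rcases Nat.lt_or_ge n k with h | h
  · have : k = n + 1 := by omega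
    subst this
    have hb : b n (n + 1) = 0 := by rw [b, if_neg (by omega)]
    rw [hb]
    push_cast
    ring
  · obtain ⟨j, rfl⟩ := Nat.exists_eq_add_of_le h
    rw [b, b, if_pos hk, if_pos h]
    have e1 : k + j + 1 - k = j + 1 := by omega
    have e2 : k + j - k = j := by omega
    have e3 : k + j + 1 + k + 1 = (k + j + k + 1) + 1 := by omega
    rw [e1, e2, e3, Nat.factorial_succ (k + j), Nat.factorial_succ j,
      Nat.factorial_succ (k + j + k + 1)]
    have h1 : (j.factorial : ℝ) ≠ 0 := by exact_mod_cast j.factorial_ne_zero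
    have h2 : ((k + j + k + 1).factorial : ℝ) ≠ 0 := by exact_mod_cast Nat.factorial_ne_zero _
    have h3 : ((j : ℝ) + 1) ≠ 0 := by positivity
    have h4 : ((k : ℝ) + j + k + 1 + 1) ≠ 0 := by positivity
    push_cast
    field_simp
    ring

/-- the functional `h ↦ ∑_k v_k b(n,k) h(k(k+1))` -/
noncomputable def Lam (v : ℕ → ℝ) (n : ℕ) (h : ℝ[X]) : ℝ :=
  ∑ k ∈ range (n + 1), v k * b n k * h.eval ((k : ℝ) * (k + 1))

lemma Lam_add (v : ℕ → ℝ) (n : ℕ) (f g : ℝ[X]) : Lam v n (f + g) = Lam v n f + Lam v n g := by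
  rw [Lam, Lam, Lam, ← Finset.sum_add_distrib]
  refine Finset.sum_congr rfl fun k _ => ?_
  rw [eval_add]; ring

lemma Lam_sub (v : ℕ → ℝ) (n : ℕ) (f g : ℝ[X]) : Lam v n (f - g) = Lam v n f - Lam v n g := by
  rw [Lam, Lam, Lam, ← Finset.sum_sub_distrib]
  refine Finset.sum_congr rfl fun k _ => ?_
  rw [eval_sub]; ring

lemma Lam_C_mul (v : ℕ → ℝ) (n : ℕ) (c : ℝ) (g : ℝ[X]) : Lam v n (C c * g) = c * Lam v n g := by
  rw [Lam, Lam, Finset.mul_sum]
  refine Finset.sum_congr rfl fun k _ => ?_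
  rw [eval_mul, eval_C]; ring

lemma Lam_rec (v : ℕ → ℝ) (n : ℕ) (h : ℝ[X]) :
    Lam v (n + 1) (X * h) =
      ((n : ℝ) + 1) * (n + 2) * Lam v (n + 1) h - ((n : ℝ) + 1) ^ 2 * Lam v n h := by
  have h1 : Lam v n h = ∑ k ∈ range (n + 1 + 1), v k * b n k * h.eval ((k : ℝ) * (k + 1)) := by
    rw [Finset.sum_range_succ _ (n + 1), Lam]
    have : b n (n + 1) = 0 := by rw [b, if_neg (by omega)]
    rw [this]; ring
  rw [h1, Lam, Lam, Finset.mul_sum, Finset.mul_sum, ← Finset.sum_sub_distrib]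
  refine Finset.sum_congr rfl fun k hk => ?_
  have h2 := b_rec n k (by have := Finset.mem_range.1 hk; omega)
  rw [eval_mul, eval_X]
  linear_combination (- v k * h.eval ((k : ℝ) * (k + 1))) * h2

/-- `∏_{j<m} (x - j(j+1))` -/
noncomputable def pp (m : ℕ) : ℝ[X] := ∏ j ∈ range m, (X - C ((j : ℝ) * (j + 1)))

lemma pp_succ (m : ℕ) : pp (m + 1) = X * pp m - C ((m : ℝ) * (m + 1)) * pp m := by
  rw [pp, Finset.prod_range_succ, ← pp]; ring

lemma pp_monic (m : ℕ) : (pp m).Monic := monic_prod_of_monic _ _ fun _ _ => monic_X_sub_C _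

lemma pp_natDegree (m : ℕ) : (pp m).natDegree = m := by
  rw [pp, natDegree_prod_of_monic _ _ fun _ _ => monic_X_sub_C _,
    Finset.sum_congr rfl fun _ _ => natDegree_X_sub_C _]
  simp

/-- `∏_{j<m} (θ + j)` -/
noncomputable def poch (θ : ℝ) (m : ℕ) : ℝ := ∏ j ∈ range m, (θ + j)

lemma poch_succ (θ : ℝ) (m : ℕ) : poch θ (m + 1) = poch θ m * (θ + m) := by
  rw [poch, Finset.prod_range_succ, ← poch]

@[simp] lemma poch_zero (θ : ℝ) : poch θ 0 = 1 := by simp [poch]

lemma Lam_pp (v : ℕ → ℝ) (ρ : ℕ → ℝ) (θ : ℝ) (h0 : ∀ n, Lam v n 1 = ρ n)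
    (hρ : ∀ n : ℕ, ((n : ℝ) + 1) * ρ n = (n + 2 - θ) * ρ (n + 1)) (m n : ℕ) :
    Lam v n (pp m) = ρ n * poch θ m * (n.descFactorial m : ℝ) := by
  induction m generalizing n with
  | zero => simp [pp, h0]
  | succ m ih =>
    rcases n with _ | n
    · rw [Lam]
      simp [pp, Finset.prod_range_succ']
    · rw [pp_succ, Lam_sub, Lam_C_mul, Lam_rec, ih, ih, poch_succ]
      have h1 : ((n + 1).descFactorial (m + 1) : ℝ) = ((n : ℝ) + 1) * (n.descFactorial m : ℝ) := by
        rw [Nat.succ_descFactorial_succ]; push_cast; ring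
      have h2 : ((n + 1).descFactorial (m + 1) : ℝ) =
          ((n : ℝ) + 1 - m) * ((n + 1).descFactorial m : ℝ) := by
        rw [Nat.descFactorial_succ]
        rcases Nat.lt_or_ge (n + 1) m with h | h
        · rw [Nat.descFactorial_eq_zero_iff_lt.2 h]; simp
        · push_cast [Nat.cast_sub h]; ring
      have h3 := hρ n
      have h4 : (((n : ℝ) + 1) ^ 2 * (ρ n * poch θ m * (n.descFactorial m : ℝ))) =
          (n + 2 - θ) * ρ (n + 1) * poch θ m * ((n + 1).descFactorial (m + 1) : ℝ) := by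
        rw [h1]
        linear_combination (((n : ℝ) + 1) * poch θ m * (n.descFactorial m : ℝ)) * h3
      rw [h4]
      linear_combination (-(ρ (n + 1) * poch θ m * (n + m + 2))) * h2

/-- weights `2k+1` -/
noncomputable def vE : ℕ → ℝ := fun k => 2 * (k : ℝ) + 1

/-- weights `1` -/
noncomputable def vS : ℕ → ℝ := fun _ => 1

/-- `s_n = 4^n (n!)^2 / (2n+1)!` -/
noncomputable def s (n : ℕ) : ℝ := 4 ^ n * (n.factorial : ℝ) ^ 2 / ((2 * n + 1).factorial : ℝ)

lemma s_pos (n : ℕ) : 0 < s n := by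
  rw [s]; positivity

lemma s_rec (n : ℕ) : ((n : ℝ) + 1) * s n = (n + 2 - 1 / 2) * s (n + 1) := by
  rw [s, s]
  have e : 2 * (n + 1) + 1 = (2 * n + 1) + 1 + 1 := by ring
  rw [e, Nat.factorial_succ n, Nat.factorial_succ (2 * n + 1 + 1), Nat.factorial_succ (2 * n + 1)]
  have h1 : (n.factorial : ℝ) ≠ 0 := by exact_mod_cast n.factorial_ne_zero
  have h2 : ((2 * n + 1).factorial : ℝ) ≠ 0 := by exact_mod_cast Nat.factorial_ne_zero _
  have h3 : (2 * (n : ℝ) + 1 + 1) ≠ 0 := by positivity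
  have h4 : (2 * (n : ℝ) + 1 + 1 + 1) ≠ 0 := by positivity
  push_cast
  field_simp
  ring

lemma Lam_vE_one (n : ℕ) : Lam vE n 1 = 1 := by
  have h : ∀ k ∈ range (n + 1), vE k * b n k * (1 : ℝ[X]).eval ((k : ℝ) * (k + 1)) =
      (fun k => if k ≤ n then (n.factorial : ℝ) ^ 2 / ((n - k).factorial * (n + k).factorial)
        else 0) k -
      (fun k => if k ≤ n then (n.factorial : ℝ) ^ 2 / ((n - k).factorial * (n + k).factorial)
        else 0) (k + 1) := by
    intro k hk
    have hk' : k ≤ n := by have := Finset.mem_range.1 hk; omega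
    obtain ⟨j, rfl⟩ := Nat.exists_eq_add_of_le hk'
    simp only [eval_one, mul_one]
    rw [b, if_pos hk', if_pos hk', vE]
    have e2 : k + j - k = j := by omega
    have h2 : ((k + j + k).factorial : ℝ) ≠ 0 := by exact_mod_cast Nat.factorial_ne_zero _
    have h1 : (j.factorial : ℝ) ≠ 0 := by exact_mod_cast j.factorial_ne_zero
    have h4 : ((k : ℝ) + j + k + 1) ≠ 0 := by positivity
    rw [e2, Nat.factorial_succ (k + j + k)]
    rcases j with _ | j
    · rw [if_neg (by omega)]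
      push_cast at h4 ⊢
      field_simp
      ring
    · rw [if_pos (by omega)]
      have e3 : k + (j + 1) - (k + 1) = j := by omega
      have e4 : k + (j + 1) + (k + 1) = (k + (j + 1) + k) + 1 := by omega
      rw [e3, e4, Nat.factorial_succ (k + (j + 1) + k), Nat.factorial_succ j]
      have h5 : (j.factorial : ℝ) ≠ 0 := by exact_mod_cast j.factorial_ne_zero
      have h6 : ((j : ℝ) + 1) ≠ 0 := by positivity
      push_cast at h4 ⊢
      field_simp
      ring
  rw [Lam, Finset.sum_congr rfl h, Finset.sum_range_sub']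
  rw [if_pos (by omega), if_neg (by omega)]
  have h1 : (n.factorial : ℝ) ≠ 0 := by exact_mod_cast n.factorial_ne_zero
  simp only [Nat.sub_zero, Nat.add_zero]
  field_simp
  ring

lemma Lam_vS_one (n : ℕ) : Lam vS n 1 = s n := by
  have h : ∀ k ∈ range (n + 1), vS k * b n k * (1 : ℝ[X]).eval ((k : ℝ) * (k + 1)) =
      (n.factorial : ℝ) ^ 2 / ((2 * n + 1).factorial : ℝ) *
        (fun i => ((2 * n + 1).choose i : ℝ)) (n - k) := by
    intro k hk
    have hk' : k ≤ n := by have := Finset.mem_range.1 hk; omega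
    simp only [eval_one, mul_one, vS, one_mul]
    rw [b, if_pos hk', Nat.cast_choose ℝ (show n - k ≤ 2 * n + 1 by omega)]
    have e1 : 2 * n + 1 - (n - k) = n + k + 1 := by omega
    rw [e1]
    have h2 : ((2 * n + 1).factorial : ℝ) ≠ 0 := by exact_mod_cast Nat.factorial_ne_zero _
    field_simp
  rw [Lam, Finset.sum_congr rfl h, ← Finset.mul_sum, s]
  have h3 : ∑ k ∈ range (n + 1), (fun i => ((2 * n + 1).choose i : ℝ)) (n - k) = 4 ^ n := by
    have h4 := Finset.sum_range_reflect (fun i => ((2 * n + 1).choose i : ℝ)) (n + 1)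
    simp only [Nat.add_sub_cancel] at h4
    rw [h4]
    exact_mod_cast Nat.sum_range_choose_halfway n
  rw [h3]
  ring

end Helper669.LM
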